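import Mathlib
import Pool.Agent.Y414.UT.Pent

/-!
Graphs whose upper total domination number `Γ_t` is `2 Γ` or `2 Γ - 1`, where `Γ` is the upper
domination number, and the triangle-free ones.
-/

set_option autoImplicit false

namespace Pool.Agent.Results.MP_5135a5_co.NearExtremal

open Pool.Agent.H328R3.UTD Pool.Agent.Y414.UT

/-- (1) For every finite graph `G` without isolated vertices, `Γ_t(G) = 2 Γ(G)` if and only if `G`
has an induced matching with `Γ(G)` edges, and `Γ_t(G) = 2 Γ(G) - 1` if and only if `G` has no such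
matching and has a configuration `Conf`.
(2) For every finite graph `G` the minimal total dominating sets with `2 Γ(G) - 1` vertices are
exactly the vertex sets `InS D d m` of the configurations; and in a configuration any two vertices
`w`, `w'` of `D`, other than `d`, whose partners `m w`, `m w'` are adjacent to `d`, have adjacent
partners or adjacent private neighbours `p w`, `p w'`.
(3) For every finite triangle-free graph `G` without isolated vertices: `Γ_t(G) = 2 Γ(G)` if and
only if `G` is isomorphic to the disjoint union of `k` edges for some `k`;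
`Γ_t(G) = 2 Γ(G) - 1` if and only if `G` is isomorphic to the disjoint union of a 5-cycle and `k`
edges for some `k`; and `Γ_t(G) ≤ 2 Γ(G) - 2` for all the others. -/
theorem result :
    (∀ (V : Type) [Fintype V] (G : SimpleGraph V), (∀ v, ∃ u, G.Adj v u) →
      (GamT G = 2 * Gam G ↔ ∃ x y : Fin (Gam G) → V, IsIM G x y) ∧
      (GamT G + 1 = 2 * Gam G ↔ (¬ ∃ x y : Fin (Gam G) → V, IsIM G x y) ∧
        ∃ (D : Finset V) (d z : V) (m p : V → V), Conf G D d z m p)) ∧
    (∀ (V : Type) [Fintype V] (G : SimpleGraph V),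
      (∀ S : Finset V, (IsMin (TDom G) S ∧ S.card + 1 = 2 * Gam G) ↔
        ∃ (D : Finset V) (d z : V) (m p : V → V), Conf G D d z m p ∧
          ∀ u, u ∈ S ↔ InS D d m u) ∧
      ∀ (D : Finset V) (d z : V) (m p : V → V), Conf G D d z m p →
        ∀ w ∈ D, ∀ w' ∈ D, w ≠ w' → w ≠ d → w' ≠ d → G.Adj (m w) d → G.Adj (m w') d →
          G.Adj (m w) (m w') ∨ G.Adj (p w) (p w')) ∧
    ∀ (V : Type) [Fintype V] (G : SimpleGraph V), (∀ v, ∃ u, G.Adj v u) → TriFree G →
      (GamT G = 2 * Gam G ↔ ∃ k, Nonempty (edges k ≃g G)) ∧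
      (GamT G + 1 = 2 * Gam G ↔ ∃ k, Nonempty (pent k ≃g G)) ∧
      ((¬ ∃ k, Nonempty (edges k ≃g G)) → (¬ ∃ k, Nonempty (pent k ≃g G)) →
        GamT G + 2 ≤ 2 * Gam G) := by
  refine ⟨fun V _ G hG => ⟨char G hG, near_iff G hG⟩, fun V _ G => ⟨fun S => ⟨?_, ?_⟩, ?_⟩,
    fun V _ G hG htf => ⟨triFree_eq_iff G htf hG, triFree_near_iff G htf hG, ?_⟩⟩
  · rintro ⟨h1, h2⟩
    exact exists_conf h1 h2
  · rintro ⟨D, d, z, m, p, hc, hS⟩
    obtain ⟨S', h1, h2, h3⟩ := conf_isMin hc
    have : S = S' := by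
      ext u
      rw [hS, h3]
    rw [this]
    exact ⟨h1, h2⟩
  · intro D d z m p hc w hw w' hw' hne hwd hwd' h1 h2
    exact conf_pair hc hw hw' hne h1 h2 hwd hwd'
  · intro h1 h2
    rw [← triFree_eq_iff G htf hG] at h1
    rw [← triFree_near_iff G htf hG] at h2
    have h3 := gamT_le G
    omega

end Pool.Agent.Results.MP_5135a5_co.NearExtremal
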